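import Mathlib

/-!
# The unit distance graph on `ℚ(√3, √11)²` has chromatic number four
-/

set_option autoImplicit false

namespace Pool.Agent.Results.MP_52ffe4_co.ChromaticFour

open Real

/-- The field `ℚ(√3, √11)`, inside the real numbers. -/
noncomputable def K : IntermediateField ℚ ℝ :=
  IntermediateField.adjoin ℚ {Real.sqrt 3, Real.sqrt 11}

/-- The unit distance graph on `K × K`. -/
def unitDistanceGraph : SimpleGraph (K × K) where
  Adj u v := ((u.1 : ℝ) - v.1) ^ 2 + ((u.2 : ℝ) - v.2) ^ 2 = 1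
  symm := ⟨by
    intro u v h
    rw [← h]
    ring⟩
  loopless := ⟨by
    intro u h
    simp at h⟩

section Field

theorem s3 : Real.sqrt 3 * Real.sqrt 3 = 3 := Real.mul_self_sqrt (by norm_num)

theorem s11 : Real.sqrt 11 * Real.sqrt 11 = 11 := Real.mul_self_sqrt (by norm_num)

theorem not_sq (n : ℕ) (hn : ¬ IsSquare n) {p r : ℚ} (h : p ^ 2 = n * r ^ 2) : p = 0 ∧ r = 0 := by
  have hr : r = 0 := by
    by_contra hr
    apply hn
    rw [← Rat.isSquare_natCast_iff]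
    refine ⟨p / r, ?_⟩
    field_simp
    linarith
  refine ⟨?_, hr⟩
  rw [hr] at h
  simpa using h

theorem nsq3 : ¬ IsSquare (3 : ℕ) := by
  rintro ⟨m, hm⟩
  have : m ≤ 6 := by nlinarith
  interval_cases m <;> omega

theorem nsq11 : ¬ IsSquare (11 : ℕ) := by
  rintro ⟨m, hm⟩
  have : m ≤ 6 := by nlinarith
  interval_cases m <;> omega

theorem nsq33 : ¬ IsSquare (33 : ℕ) := by
  rintro ⟨m, hm⟩
  have : m ≤ 6 := by nlinarith
  interval_cases m <;> omega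

theorem indep3 {p q : ℚ} (h : (p : ℝ) + q * Real.sqrt 3 = 0) : p = 0 ∧ q = 0 := by
  have h1 : (p : ℝ) ^ 2 = 3 * (q : ℝ) ^ 2 := by
    have : (p : ℝ) = -(q * Real.sqrt 3) := by linarith
    rw [this]
    have := s3
    nlinarith [this]
  have h2 : p ^ 2 = ((3 : ℕ) : ℚ) * q ^ 2 := by
    have : ((p ^ 2 : ℚ) : ℝ) = ((((3 : ℕ) : ℚ) * q ^ 2 : ℚ) : ℝ) := by push_cast; exact h1
    exact_mod_cast this
  exact not_sq 3 nsq3 h2

/-- The real number with coordinates `p, q, r, s`. -/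
noncomputable def el (p q r s : ℚ) : ℝ :=
  p + q * Real.sqrt 3 + r * Real.sqrt 11 + s * (Real.sqrt 3 * Real.sqrt 11)

theorem indep {p q r s : ℚ} (h : el p q r s = 0) : p = 0 ∧ q = 0 ∧ r = 0 ∧ s = 0 := by
  have e3 := s3
  have e11 := s11
  have hX : ((p : ℝ) + q * Real.sqrt 3) = - (Real.sqrt 11 * (r + s * Real.sqrt 3)) := by
    unfold el at h
    linarith
  have h2 : ((p : ℝ) + q * Real.sqrt 3) ^ 2 = 11 * ((r : ℝ) + s * Real.sqrt 3) ^ 2 := by
    rw [hX]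
    calc (-(√11 * ((r : ℝ) + s * √3))) ^ 2 = (√11 * √11) * ((r : ℝ) + s * √3) ^ 2 := by ring
      _ = _ := by rw [e11]
  have h3 : ((p ^ 2 + 3 * q ^ 2 - 11 * (r ^ 2 + 3 * s ^ 2) : ℚ) : ℝ) +
      ((2 * (p * q) - 22 * (r * s) : ℚ) : ℝ) * Real.sqrt 3 = 0 := by
    push_cast
    have e1 : ((p : ℝ) + q * √3) ^ 2 = p ^ 2 + q ^ 2 * (√3 * √3) + 2 * (p * q) * √3 := by ring
    have e2 : ((r : ℝ) + s * √3) ^ 2 = r ^ 2 + s ^ 2 * (√3 * √3) + 2 * (r * s) * √3 := by ring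
    rw [e1, e2, e3] at h2
    linarith
  obtain ⟨h4, h5⟩ := indep3 h3
  have hN : (p ^ 2 - 3 * q ^ 2) ^ 2 = (11 * (r ^ 2 - 3 * s ^ 2)) ^ 2 := by
    have e1 : p ^ 2 + 3 * q ^ 2 = 11 * (r ^ 2 + 3 * s ^ 2) := by linarith
    have e2 : p * q = 11 * (r * s) := by linarith
    calc (p ^ 2 - 3 * q ^ 2) ^ 2 = (p ^ 2 + 3 * q ^ 2) ^ 2 - 12 * (p * q) ^ 2 := by ring
      _ = (11 * (r ^ 2 + 3 * s ^ 2)) ^ 2 - 12 * (11 * (r * s)) ^ 2 := by rw [e1, e2]
      _ = _ := by ring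
  rcases sq_eq_sq_iff_eq_or_eq_neg.1 hN with h6 | h6
  · have h7 : p ^ 2 = ((11 : ℕ) : ℚ) * r ^ 2 := by push_cast; linarith
    have h8 : q ^ 2 = ((11 : ℕ) : ℚ) * s ^ 2 := by push_cast; linarith
    obtain ⟨hp, hr⟩ := not_sq 11 nsq11 h7
    obtain ⟨hq, hs⟩ := not_sq 11 nsq11 h8
    exact ⟨hp, hq, hr, hs⟩
  · have h7 : p ^ 2 = ((33 : ℕ) : ℚ) * s ^ 2 := by push_cast; linarith
    have h8 : (3 * q) ^ 2 = ((33 : ℕ) : ℚ) * r ^ 2 := by push_cast; linarith
    obtain ⟨hp, hs⟩ := not_sq 33 nsq33 h7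
    obtain ⟨hq, hr⟩ := not_sq 33 nsq33 h8
    exact ⟨hp, by linarith, hr, hs⟩

/-- The subalgebra of all `el p q r s`. -/
noncomputable def S : Subalgebra ℚ ℝ where
  carrier := {x | ∃ p q r s : ℚ, x = el p q r s}
  mul_mem' := by
    rintro x y ⟨p, q, r, s, rfl⟩ ⟨p', q', r', s', rfl⟩
    refine ⟨p * p' + 3 * (q * q') + 11 * (r * r') + 33 * (s * s'),
      p * q' + q * p' + 11 * (r * s' + s * r'),
      p * r' + r * p' + 3 * (q * s' + s * q'),
      p * s' + s * p' + q * r' + r * q', ?_⟩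
    unfold el
    push_cast
    have e3 := s3
    have e11 := s11
    linear_combination ((q : ℝ) * q' + (q * s' + s * q') * √11 + s * s' * (√11 * √11)) * e3 +
      ((r : ℝ) * r' + (r * s' + s * r') * √3 + 3 * (s * s')) * e11
  add_mem' := by
    rintro x y ⟨p, q, r, s, rfl⟩ ⟨p', q', r', s', rfl⟩
    refine ⟨p + p', q + q', r + r', s + s', ?_⟩
    unfold el
    push_cast
    ring
  algebraMap_mem' := by
    intro p
    refine ⟨p, 0, 0, 0, ?_⟩
    simp [el]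

theorem mem_K {x : ℝ} (hx : x ∈ K) : ∃ p q r s : ℚ, x = el p q r s := by
  have h3 : IsAlgebraic ℚ (Real.sqrt 3) := by
    refine IsIntegral.isAlgebraic (IsIntegral.of_pow (n := 2) (by norm_num) ?_)
    rw [Real.sq_sqrt (by norm_num)]
    exact (isIntegral_algebraMap (R := ℚ) (A := ℝ) (x := 3)) |> fun h => by simpa using h
  have h11 : IsAlgebraic ℚ (Real.sqrt 11) := by
    refine IsIntegral.isAlgebraic (IsIntegral.of_pow (n := 2) (by norm_num) ?_)
    rw [Real.sq_sqrt (by norm_num)]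
    exact (isIntegral_algebraMap (R := ℚ) (A := ℝ) (x := 11)) |> fun h => by simpa using h
  have h := IntermediateField.adjoin_toSubalgebra_of_isAlgebraic (F := ℚ)
    (S := ({Real.sqrt 3, Real.sqrt 11} : Set ℝ)) (by
      rintro x (rfl | rfl)
      · exact h3
      · exact h11)
  have hx' : x ∈ K.toSubalgebra := hx
  rw [K, h] at hx'
  have hle : Algebra.adjoin ℚ ({Real.sqrt 3, Real.sqrt 11} : Set ℝ) ≤ S := by
    rw [Algebra.adjoin_le_iff]
    rintro x (rfl | rfl)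
    · exact ⟨0, 1, 0, 0, by simp [el]⟩
    · exact ⟨0, 0, 1, 0, by simp [el]⟩
  exact hle hx'

theorem el_sub (p q r s p' q' r' s' : ℚ) :
    el p q r s - el p' q' r' s' = el (p - p') (q - q') (r - r') (s - s') := by
  unfold el
  push_cast
  ring

theorem el_add (p q r s p' q' r' s' : ℚ) :
    el p q r s + el p' q' r' s' = el (p + p') (q + q') (r + r') (s + s') := by
  unfold el
  push_cast
  ring

theorem el_inj {p q r s p' q' r' s' : ℚ} (h : el p q r s = el p' q' r' s') :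
    p = p' ∧ q = q' ∧ r = r' ∧ s = s' := by
  have h1 := el_sub p q r s p' q' r' s'
  rw [h, sub_self] at h1
  obtain ⟨h2, h3, h4, h5⟩ := indep h1.symm
  exact ⟨by linarith, by linarith, by linarith, by linarith⟩

/-- The coordinates of the elements of `K`. -/
theorem exists_coord : ∃ c : Fin 4 → (K →+ ℚ),
    ∀ x : K, (x : ℝ) = el (c 0 x) (c 1 x) (c 2 x) (c 3 x) := by
  choose P Q R S h using fun x : K => mem_K x.2
  have key : ∀ x y : K, P (x + y) = P x + P y ∧ Q (x + y) = Q x + Q y ∧ R (x + y) = R x + R y ∧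
      S (x + y) = S x + S y := by
    intro x y
    apply el_inj
    rw [← h, ← el_add, ← h, ← h]
    rfl
  refine ⟨![AddMonoidHom.mk' P fun x y => (key x y).1, AddMonoidHom.mk' Q fun x y => (key x y).2.1,
    AddMonoidHom.mk' R fun x y => (key x y).2.2.1, AddMonoidHom.mk' S fun x y => (key x y).2.2.2],
    fun x => ?_⟩
  exact h x

end Field

section Local

theorem exists_rho : ∃ ρ : ℤ_[2], ρ ^ 2 = 33 := by
  have h := hensels_lemma (p := 2) (R := ℤ_[2]) (F := Polynomial.X ^ 2 - Polynomial.C 33)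
    (a := (1 : ℤ_[2])) (by
      simp only [map_sub, map_pow, Polynomial.aeval_X, Polynomial.aeval_C,
        Polynomial.derivative_X_pow, Polynomial.derivative_C, map_mul]
      have e1 : ((1 : ℤ_[2]) ^ 2 - (algebraMap ℤ_[2] ℤ_[2]) 33) = - 2 ^ 5 := by
        simp; norm_num
      rw [e1, norm_neg, norm_pow]
      have e2 : ‖(2 : ℤ_[2])‖ = 1 / 2 := by
        have := PadicInt.norm_p (p := 2)
        simpa using this
      simp
      rw [e2]
      norm_num)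
  obtain ⟨z, hz, -⟩ := h
  refine ⟨z, ?_⟩
  simp only [map_sub, map_pow, Polynomial.aeval_X, Polynomial.aeval_C] at hz
  have := sub_eq_zero.1 hz
  simpa using this

theorem unit_aux (μ : ℤ_[2]) : ‖1 - μ + μ ^ 2‖ = 1 := by
  rw [← PadicInt.isUnit_iff]
  by_contra h
  have h1 : PadicInt.toZMod (1 - μ + μ ^ 2) = 0 := by
    rw [← RingHom.mem_ker, PadicInt.ker_toZMod]
    exact (IsLocalRing.mem_maximalIdeal _).2 h
  rw [map_add, map_sub, map_pow, map_one] at h1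
  generalize PadicInt.toZMod μ = m at h1
  revert h1
  revert m
  decide

theorem norm_two : ‖(2 : ℤ_[2])‖ = 1 / 2 := by
  have := PadicInt.norm_p (p := 2)
  simpa using this

/-- `1 + λ²` has norm `1` if `λ` is not a unit, and norm `1/2` if it is. -/
theorem norm_one_add_sq (l : ℤ_[2]) : (‖l‖ < 1 ∧ ‖1 + l ^ 2‖ = 1) ∨ ‖1 + l ^ 2‖ = 1 / 2 := by
  by_cases hl : IsUnit l
  · right
    have h1 : ∃ t : ℤ_[2], l = 1 + 2 * t := by
      have h2 : PadicInt.toZMod (l - 1) = 0 := by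
        have : IsUnit (PadicInt.toZMod l) := hl.map _
        rw [map_sub, map_one]
        generalize PadicInt.toZMod l = m at this
        revert this
        revert m
        decide
      rw [← RingHom.mem_ker, PadicInt.ker_toZMod, PadicInt.maximalIdeal_eq_span_p,
        Ideal.mem_span_singleton] at h2
      obtain ⟨t, ht⟩ := h2
      exact ⟨t, by push_cast at ht; linear_combination ht⟩
    obtain ⟨t, rfl⟩ := h1
    have h3 : 1 + (1 + 2 * t) ^ 2 = 2 * (1 + 2 * (t + t ^ 2)) := by ring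
    have h4 : ‖(1 + 2 * (t + t ^ 2) : ℤ_[2])‖ = 1 := by
      rw [← PadicInt.isUnit_iff]
      by_contra h
      have h1 : PadicInt.toZMod (1 + 2 * (t + t ^ 2)) = 0 := by
        rw [← RingHom.mem_ker, PadicInt.ker_toZMod]
        exact (IsLocalRing.mem_maximalIdeal _).2 h
      rw [map_add, map_mul, map_one, map_ofNat] at h1
      generalize PadicInt.toZMod (t + t ^ 2) = m at h1
      revert h1
      revert m
      decide
    rw [h3, norm_mul, h4, norm_two]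
    norm_num
  · left
    have hl' : ‖l‖ < 1 := by
      rw [PadicInt.isUnit_iff] at hl
      exact lt_of_le_of_ne (PadicInt.norm_le_one l) hl
    refine ⟨hl', ?_⟩
    rw [← PadicInt.isUnit_iff]
    by_contra h
    have h1 : PadicInt.toZMod (1 + l ^ 2) = 0 := by
      rw [← RingHom.mem_ker, PadicInt.ker_toZMod]
      exact (IsLocalRing.mem_maximalIdeal _).2 h
    have h2 : PadicInt.toZMod l = 0 := by
      rw [← RingHom.mem_ker, PadicInt.ker_toZMod]
      exact (IsLocalRing.mem_maximalIdeal _).2 hl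
    rw [map_add, map_pow, map_one, h2] at h1
    revert h1
    decide

/-- The key local computation. -/
theorem local_one {u v w z : ℚ_[2]} (h1 : v * w = u * z)
    (h2 : u ^ 2 - u * v + v ^ 2 + (w ^ 2 - w * z + z ^ 2) = 1) (hv : ‖v‖ ≤ ‖u‖) (hw : ‖w‖ ≤ ‖u‖)
    (hz : ‖z‖ ≤ ‖u‖) :
    ‖u‖ = 1 ∧ ‖v‖ ≤ 1 ∧ ‖w‖ < 1 ∧ ‖z‖ < 1 := by
  have hu : u ≠ 0 := by
    rintro rfl
    rw [norm_zero] at hv hw hz
    have hv0 := norm_eq_zero.1 (le_antisymm hv (norm_nonneg _))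
    have hw0 := norm_eq_zero.1 (le_antisymm hw (norm_nonneg _))
    have hz0 := norm_eq_zero.1 (le_antisymm hz (norm_nonneg _))
    subst hv0 hw0 hz0
    norm_num at h2
  have hupos : 0 < ‖u‖ := norm_pos_iff.2 hu
  have hm : ‖v / u‖ ≤ 1 := by
    rw [norm_div]
    exact (div_le_one hupos).2 hv
  have hl : ‖w / u‖ ≤ 1 := by
    rw [norm_div]
    exact (div_le_one hupos).2 hw
  let μ : ℤ_[2] := ⟨v / u, hm⟩
  let l : ℤ_[2] := ⟨w / u, hl⟩
  have hzz : z = (w / u) * (v / u) * u := by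
    field_simp
    linear_combination -h1
  have hμ : ‖(1 - v / u + (v / u) ^ 2 : ℚ_[2])‖ = 1 := unit_aux μ
  have hL : (‖(w / u : ℚ_[2])‖ < 1 ∧ ‖(1 + (w / u) ^ 2 : ℚ_[2])‖ = 1) ∨
      ‖(1 + (w / u) ^ 2 : ℚ_[2])‖ = 1 / 2 := norm_one_add_sq l
  have h3 : u ^ 2 * (1 + (w / u) ^ 2) * (1 - v / u + (v / u) ^ 2) = 1 := by
    refine Eq.trans ?_ h2
    rw [hzz]
    field_simp
  have h4 : ‖u‖ ^ 2 * ‖(1 + (w / u) ^ 2 : ℚ_[2])‖ = 1 := by
    have := congrArg norm h3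
    rw [norm_mul, norm_mul, hμ, norm_pow, norm_one, mul_one] at this
    exact this
  rcases hL with ⟨hL1, hL2⟩ | hL
  · rw [hL2, mul_one] at h4
    have hu1 : ‖u‖ = 1 := by nlinarith
    refine ⟨hu1, hu1 ▸ hv, ?_, ?_⟩
    · rw [norm_div, hu1, div_one] at hL1
      exact hL1
    · rw [hzz, norm_mul, norm_mul, hu1, mul_one]
      nlinarith [norm_nonneg (w / u), norm_nonneg (v / u)]
  · exfalso
    rw [hL] at h4
    have h5 : ‖u‖ ^ 2 = 2 := by linarith
    rw [Padic.norm_eq_zpow_neg_valuation hu, ← zpow_natCast, ← zpow_mul] at h5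
    have h6 : (2 : ℝ) ^ (-u.valuation * 2) = 2 ^ (1 : ℤ) := by
      rw [zpow_one]
      exact_mod_cast h5
    have h7 := zpow_right_injective₀ (by norm_num : (0 : ℝ) < 2) (by norm_num) h6
    omega

theorem local_all {u v w z : ℚ_[2]} (h1 : v * w = u * z)
    (h2 : u ^ 2 - u * v + v ^ 2 + (w ^ 2 - w * z + z ^ 2) = 1) :
    ‖u + w‖ ≤ 1 ∧ ‖v + z‖ ≤ 1 ∧ (‖u + w‖ = 1 ∨ ‖v + z‖ = 1) := by
  have aux : ∀ {x y : ℚ_[2]}, ‖x‖ = 1 → ‖y‖ < 1 → ‖x + y‖ = 1 := by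
    intro x y hx hy
    rw [Padic.add_eq_max_of_ne (by rw [hx]; exact hy.ne'), hx]
    exact max_eq_left hy.le
  have aux2 : ∀ {x y : ℚ_[2]}, ‖x‖ ≤ 1 → ‖y‖ ≤ 1 → ‖x + y‖ ≤ 1 := by
    intro x y hx hy
    exact (Padic.nonarchimedean x y).trans (max_le hx hy)
  have hmax : (‖v‖ ≤ ‖u‖ ∧ ‖w‖ ≤ ‖u‖ ∧ ‖z‖ ≤ ‖u‖) ∨ (‖u‖ ≤ ‖v‖ ∧ ‖w‖ ≤ ‖v‖ ∧ ‖z‖ ≤ ‖v‖) ∨
      (‖u‖ ≤ ‖w‖ ∧ ‖v‖ ≤ ‖w‖ ∧ ‖z‖ ≤ ‖w‖) ∨ (‖u‖ ≤ ‖z‖ ∧ ‖v‖ ≤ ‖z‖ ∧ ‖w‖ ≤ ‖z‖) := by
    rcases le_total ‖v‖ ‖u‖ with h1 | h1 <;> rcases le_total ‖z‖ ‖w‖ with h2 | h2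
    · rcases le_total ‖u‖ ‖w‖ with h3 | h3
      · exact Or.inr (Or.inr (Or.inl ⟨h3, h1.trans h3, h2⟩))
      · exact Or.inl ⟨h1, h3, h2.trans h3⟩
    · rcases le_total ‖u‖ ‖z‖ with h3 | h3
      · exact Or.inr (Or.inr (Or.inr ⟨h3, h1.trans h3, h2⟩))
      · exact Or.inl ⟨h1, h2.trans h3, h3⟩
    · rcases le_total ‖v‖ ‖w‖ with h3 | h3
      · exact Or.inr (Or.inr (Or.inl ⟨h1.trans h3, h3, h2⟩))
      · exact Or.inr (Or.inl ⟨h1, h3, h2.trans h3⟩)
    · rcases le_total ‖v‖ ‖z‖ with h3 | h3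
      · exact Or.inr (Or.inr (Or.inr ⟨h1.trans h3, h3, h2⟩))
      · exact Or.inr (Or.inl ⟨h1, h2.trans h3, h3⟩)
  rcases hmax with ⟨ha, hb, hc⟩ | ⟨ha, hb, hc⟩ | ⟨ha, hb, hc⟩ | ⟨ha, hb, hc⟩
  · obtain ⟨e1, e2, e3, e4⟩ := local_one h1 h2 ha hb hc
    exact ⟨(aux e1 e3).le, aux2 e2 e4.le, Or.inl (aux e1 e3)⟩
  · obtain ⟨e1, e2, e3, e4⟩ := local_one (u := v) (v := u) (w := z) (z := w) h1.symm
      (by linear_combination h2) ha hc hb
    exact ⟨aux2 e2 e4.le, (aux e1 e3).le, Or.inr (aux e1 e3)⟩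
  · obtain ⟨e1, e2, e3, e4⟩ := local_one (u := w) (v := z) (w := u) (z := v)
      (by linear_combination -h1) (by linear_combination h2) hc ha hb
    rw [add_comm u w, add_comm v z]
    exact ⟨(aux e1 e3).le, aux2 e2 e4.le, Or.inl (aux e1 e3)⟩
  · obtain ⟨e1, e2, e3, e4⟩ := local_one (u := z) (v := w) (w := v) (z := u)
      (by linear_combination h1) (by linear_combination h2) hc hb ha
    rw [add_comm u w, add_comm v z]
    exact ⟨aux2 e2 e4.le, (aux e1 e3).le, Or.inr (aux e1 e3)⟩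

end Local

section Colouring

theorem colorable_of_hom {A B : Type*} [AddCommGroup A] [Fintype B] [AddCommGroup B]
    (G : SimpleGraph A) (H : AddSubgroup A) (f : H →+ B)
    (h : ∀ u v, G.Adj u v → ∃ hH : u - v ∈ H, f ⟨u - v, hH⟩ ≠ 0) :
    G.Colorable (Fintype.card B) := by
  have hrep : ∀ u : A, u - (QuotientAddGroup.mk u : A ⧸ H).out ∈ H := by
    intro u
    have h1 : (QuotientAddGroup.mk (QuotientAddGroup.mk u : A ⧸ H).out : A ⧸ H) =
        QuotientAddGroup.mk u := Quotient.out_eq' _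
    have h2 := QuotientAddGroup.eq.1 h1
    rwa [neg_add_eq_sub] at h2
  let C : G.Coloring B := SimpleGraph.Coloring.mk (fun u => f ⟨_, hrep u⟩) (by
    intro u v huv
    obtain ⟨hH, hf⟩ := h u v huv
    intro heq
    apply hf
    have h1 : (QuotientAddGroup.mk v : A ⧸ H) = QuotientAddGroup.mk u := by
      apply QuotientAddGroup.eq.2
      rwa [neg_add_eq_sub]
    have h2 : (⟨u - v, hH⟩ : H) = ⟨_, hrep u⟩ - ⟨_, hrep v⟩ := by
      apply Subtype.ext
      show u - v = (u - _) - (v - _)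
      rw [h1]
      abel
    rw [h2, map_sub, heq, sub_self])
  exact C.colorable

/-- Reduction modulo two of an additive map with values in `ℚ_2`. -/
noncomputable def integral : AddSubgroup ℚ_[2] := (PadicInt.subring 2).toAddSubgroup

/-- The reduction map. -/
noncomputable def red : integral →+ ZMod 2 :=
  (PadicInt.toZMod (p := 2)).toAddMonoidHom

theorem red_ne_zero {x : ℚ_[2]} (hx : x ∈ integral) (h : ‖x‖ = 1) : red ⟨x, hx⟩ ≠ 0 := by
  let y : ℤ_[2] := ⟨x, hx⟩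
  have h1 : IsUnit y := PadicInt.isUnit_iff.2 h
  have h2 : IsUnit (PadicInt.toZMod y) := h1.map _
  exact h2.ne_zero

theorem colorable_four : unitDistanceGraph.Colorable 4 := by
  obtain ⟨c, hc⟩ := exists_coord
  obtain ⟨ρ, hρ⟩ := exists_rho
  have hρ' : ((ρ : ℚ_[2])) ^ 2 = 33 := by
    have := congrArg (PadicInt.Coe.ringHom (p := 2)) hρ
    rw [map_pow, map_ofNat] at this
    exact this
  let q2 : ℚ →+ ℚ_[2] := (Rat.castHom ℚ_[2]).toAddMonoidHom
  let a : K →+ ℚ_[2] := q2.comp (c 0) + (AddMonoidHom.mulRight (ρ : ℚ_[2])).comp (q2.comp (c 3))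
  let b : K →+ ℚ_[2] := q2.comp (c 1) +
    (AddMonoidHom.mulRight ((ρ : ℚ_[2]) / 3)).comp (q2.comp (c 2))
  have ha : ∀ x, a x = ((c 0 x : ℚ) : ℚ_[2]) + ((c 3 x : ℚ) : ℚ_[2]) * ρ := fun x => rfl
  have hb : ∀ x, b x = ((c 1 x : ℚ) : ℚ_[2]) + ((c 2 x : ℚ) : ℚ_[2]) * (ρ / 3) := fun x => rfl
  let fst : K × K →+ K := AddMonoidHom.fst K K
  let snd : K × K →+ K := AddMonoidHom.snd K K
  let g1 : K × K →+ ℚ_[2] := a.comp fst + b.comp snd + (a.comp snd - b.comp fst)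
  let g2 : K × K →+ ℚ_[2] := (b.comp snd + b.comp snd) - (b.comp fst + b.comp fst)
  let H : AddSubgroup (K × K) := integral.comap g1 ⊓ integral.comap g2
  let f : H →+ ZMod 2 × ZMod 2 :=
    AddMonoidHom.mk' (fun P => (red ⟨g1 P.1, P.2.1⟩, red ⟨g2 P.1, P.2.2⟩)) (by
      intro P Q
      have h1 : (⟨g1 (P + Q).1, (P + Q).2.1⟩ : integral) = ⟨g1 P.1, P.2.1⟩ + ⟨g1 Q.1, Q.2.1⟩ :=
        Subtype.ext (map_add g1 _ _)
      have h2 : (⟨g2 (P + Q).1, (P + Q).2.2⟩ : integral) = ⟨g2 P.1, P.2.2⟩ + ⟨g2 Q.1, Q.2.2⟩ :=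
        Subtype.ext (map_add g2 _ _)
      rw [h1, h2, map_add, map_add]
      rfl)
  have hcard : Fintype.card (ZMod 2 × ZMod 2) = 4 := by
    simp
  rw [← hcard]
  refine colorable_of_hom _ H f ?_
  intro P Q hPQ
  obtain ⟨x, y, hxy⟩ : ∃ x y : K, P - Q = (x, y) := ⟨_, _, rfl⟩
  have hxy1 : ((x : ℝ)) ^ 2 + ((y : ℝ)) ^ 2 = 1 := by
    have e1 : x = P.1 - Q.1 := (congrArg Prod.fst hxy).symm
    have e2 : y = P.2 - Q.2 := (congrArg Prod.snd hxy).symm
    rw [e1, e2]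
    exact hPQ
  rw [hc x, hc y] at hxy1
  have hE : el (c 0 x ^ 2 + 3 * c 1 x ^ 2 + 11 * c 2 x ^ 2 + 33 * c 3 x ^ 2 +
        (c 0 y ^ 2 + 3 * c 1 y ^ 2 + 11 * c 2 y ^ 2 + 33 * c 3 y ^ 2))
      (2 * (c 0 x * c 1 x + 11 * (c 2 x * c 3 x)) + 2 * (c 0 y * c 1 y + 11 * (c 2 y * c 3 y)))
      (2 * (c 0 x * c 2 x + 3 * (c 1 x * c 3 x)) + 2 * (c 0 y * c 2 y + 3 * (c 1 y * c 3 y)))
      (2 * (c 0 x * c 3 x + c 1 x * c 2 x) + 2 * (c 0 y * c 3 y + c 1 y * c 2 y)) =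
      el 1 0 0 0 := by
    have e3 := s3
    have e11 := s11
    have h1 : el 1 0 0 0 = 1 := by simp [el]
    rw [h1, ← hxy1]
    generalize c 0 x = p, c 1 x = q, c 2 x = r, c 3 x = s
    generalize c 0 y = p', c 1 y = q', c 2 y = r', c 3 y = s'
    unfold el
    push_cast
    linear_combination -((q : ℝ) ^ 2 + 2 * q * s * √11 + s ^ 2 * (√11 * √11) +
      ((q' : ℝ) ^ 2 + 2 * q' * s' * √11 + s' ^ 2 * (√11 * √11))) * e3 -
      ((r : ℝ) ^ 2 + 2 * r * s * √3 + 3 * s ^ 2 + ((r' : ℝ) ^ 2 + 2 * r' * s' * √3 + 3 * s' ^ 2))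
        * e11
  obtain ⟨E1, E2, E3, E4⟩ := el_inj hE
  have F1 := congrArg (Rat.cast (K := ℚ_[2])) E1
  have F2 := congrArg (Rat.cast (K := ℚ_[2])) E2
  have F3 := congrArg (Rat.cast (K := ℚ_[2])) E3
  have F4 := congrArg (Rat.cast (K := ℚ_[2])) E4
  push_cast at F1 F2 F3 F4
  have hax := ha x
  have hay := ha y
  have hbx := hb x
  have hby := hb y
  have hloc := local_all (u := a x + b y) (v := b y + b y) (w := a y - b x) (z := -(b x + b x))
    (by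
      rw [hax, hay, hbx, hby]
      linear_combination F2 + (ρ : ℚ_[2]) / 3 * F3 +
        (2 / 3 * ((c 3 x : ℚ) : ℚ_[2]) * ((c 2 x : ℚ) : ℚ_[2]) +
          2 / 3 * ((c 3 y : ℚ) : ℚ_[2]) * ((c 2 y : ℚ) : ℚ_[2])) * hρ')
    (by
      rw [hax, hay, hbx, hby]
      linear_combination F1 + (ρ : ℚ_[2]) * F4 +
        (((c 3 x : ℚ) : ℚ_[2]) ^ 2 + 1 / 3 * ((c 2 x : ℚ) : ℚ_[2]) ^ 2 +
          ((c 3 y : ℚ) : ℚ_[2]) ^ 2 + 1 / 3 * ((c 2 y : ℚ) : ℚ_[2]) ^ 2) * hρ')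
  have hg1 : g1 (P - Q) = a x + b y + (a y - b x) := by rw [hxy]; rfl
  have hg2 : g2 (P - Q) = b y + b y + -(b x + b x) := by
    rw [← sub_eq_add_neg, hxy]; rfl
  rw [← hg1, ← hg2] at hloc
  obtain ⟨i1, i2, i3⟩ := hloc
  refine ⟨⟨i1, i2⟩, fun h0 => ?_⟩
  have j1 := congrArg Prod.fst h0
  have j2 := congrArg Prod.snd h0
  rcases i3 with i3 | i3
  · exact red_ne_zero i1 i3 j1
  · exact red_ne_zero i2 i3 j2

end Colouring

section Lower

/-- The inclusion of `K` in the reals. -/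
noncomputable def φ : K →+* ℝ := algebraMap K ℝ

theorem adj_iff (u v : K × K) : unitDistanceGraph.Adj u v ↔
    (φ u.1 - φ v.1) ^ 2 + (φ u.2 - φ v.2) ^ 2 = 1 := Iff.rfl

theorem not_colorable_three : ¬ unitDistanceGraph.Colorable 3 := by
  rintro ⟨C⟩
  have m3 : Real.sqrt 3 ∈ K := IntermediateField.subset_adjoin _ _ (by simp)
  have m11 : Real.sqrt 11 ∈ K := IntermediateField.subset_adjoin _ _ (by simp)
  obtain ⟨t3, c3⟩ : ∃ t : K, φ t = Real.sqrt 3 := ⟨⟨Real.sqrt 3, m3⟩, rfl⟩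
  obtain ⟨t11, c11⟩ : ∃ t : K, φ t = Real.sqrt 11 := ⟨⟨Real.sqrt 11, m11⟩, rfl⟩
  have e3 := s3
  have e11 := s11
  have hadj : ∀ x y x' y' : K, (φ x - φ x') ^ 2 + (φ y - φ y') ^ 2 = 1 →
      C (x, y) ≠ C (x', y') := fun x y x' y' h => C.valid ((adj_iff _ _).2 h)
  have hAB := hadj 0 0 (t3 / 2) (1 / 2) (by
    simp only [map_div₀, map_zero, map_one, map_ofNat, c3]
    linear_combination (1 / 4) * e3)
  have hAB2 := hadj 0 0 (t3 / 2) (-(1 / 2)) (by
    simp only [map_div₀, map_neg, map_zero, map_one, map_ofNat, c3]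
    linear_combination (1 / 4) * e3)
  have hBB2 := hadj (t3 / 2) (1 / 2) (t3 / 2) (-(1 / 2)) (by
    simp only [map_div₀, map_neg, map_zero, map_one, map_ofNat, c3]
    ring)
  have hBD := hadj (t3 / 2) (1 / 2) t3 0 (by
    simp only [map_div₀, map_neg, map_zero, map_one, map_ofNat, c3]
    linear_combination (1 / 4) * e3)
  have hB2D := hadj (t3 / 2) (-(1 / 2)) t3 0 (by
    simp only [map_div₀, map_neg, map_zero, map_one, map_ofNat, c3]
    linear_combination (1 / 4) * e3)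
  have hAF := hadj 0 0 (5 * t3 / 12 - t11 / 12) (t3 * t11 / 12 + 5 / 12) (by
    simp only [map_div₀, map_neg, map_zero, map_one, map_ofNat, map_mul, map_sub, map_add, c3, c11]
    linear_combination (25 / 144 + Real.sqrt 11 * Real.sqrt 11 / 144) * e3 + (1 / 144 + 3 / 144) * e11)
  have hAF2 := hadj 0 0 (5 * t3 / 12 + t11 / 12) (t3 * t11 / 12 - 5 / 12) (by
    simp only [map_div₀, map_neg, map_zero, map_one, map_ofNat, map_mul, map_sub, map_add, c3, c11]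
    linear_combination (25 / 144 + Real.sqrt 11 * Real.sqrt 11 / 144) * e3 + (1 / 144 + 3 / 144) * e11)
  have hFF2 := hadj (5 * t3 / 12 - t11 / 12) (t3 * t11 / 12 + 5 / 12)
      (5 * t3 / 12 + t11 / 12) (t3 * t11 / 12 - 5 / 12) (by
    simp only [map_div₀, map_neg, map_zero, map_one, map_ofNat, map_mul, map_sub, map_add, c3, c11]
    linear_combination (1 / 36) * e11)
  have hFE := hadj (5 * t3 / 12 - t11 / 12) (t3 * t11 / 12 + 5 / 12) (5 * t3 / 6) (t3 * t11 / 6) (by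
    simp only [map_div₀, map_neg, map_zero, map_one, map_ofNat, map_mul, map_sub, map_add, c3, c11]
    linear_combination (25 / 144 + Real.sqrt 11 * Real.sqrt 11 / 144) * e3 + (1 / 144 + 3 / 144) * e11)
  have hF2E := hadj (5 * t3 / 12 + t11 / 12) (t3 * t11 / 12 - 5 / 12) (5 * t3 / 6) (t3 * t11 / 6) (by
    simp only [map_div₀, map_neg, map_zero, map_one, map_ofNat, map_mul, map_sub, map_add, c3, c11]
    linear_combination (25 / 144 + Real.sqrt 11 * Real.sqrt 11 / 144) * e3 + (1 / 144 + 3 / 144) * e11)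
  have hDE := hadj t3 0 (5 * t3 / 6) (t3 * t11 / 6) (by
    simp only [map_div₀, map_neg, map_zero, map_one, map_ofNat, map_mul, map_sub, map_add, c3, c11]
    linear_combination (1 / 36 + Real.sqrt 11 * Real.sqrt 11 / 36) * e3 + (3 / 36) * e11)
  generalize C (0, 0) = cA at *
  generalize C (t3 / 2, 1 / 2) = cB at *
  generalize C (t3 / 2, -(1 / 2)) = cB2 at *
  generalize C (t3, 0) = cD at *
  generalize C (5 * t3 / 12 - t11 / 12, t3 * t11 / 12 + 5 / 12) = cF at *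
  generalize C (5 * t3 / 12 + t11 / 12, t3 * t11 / 12 - 5 / 12) = cF2 at *
  generalize C (5 * t3 / 6, t3 * t11 / 6) = cE at *
  omega

end Lower

/-- The unit distance graph on `ℚ(√3, √11)²` has chromatic number `4`. -/
theorem result : unitDistanceGraph.chromaticNumber = 4 := by
  apply le_antisymm
  · exact_mod_cast colorable_four.chromaticNumber_le
  · by_contra h
    push Not at h
    apply not_colorable_three
    have h1 : unitDistanceGraph.chromaticNumber ≤ 3 := by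
      exact Order.le_of_lt_add_one (by exact_mod_cast h)
    exact SimpleGraph.chromaticNumber_le_iff_colorable.1 (by exact_mod_cast h1)

end Pool.Agent.Results.MP_52ffe4_co.ChromaticFour
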